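import Mathlib

/-!
# Project SF (helper859): square products of four factorials, statements

`m! b! y! y'!` is a square with `y' ≤ y ≤ b < m` (`Rep m b y y'`). Goal: for almost all `m`
this forces `m - b = 1` and `y - y' = 1`, hence `m` is not squarefree; so the set `D_4` of Erdos
and Graham has the density `1 - 6/π²`.
-/

set_option autoImplicit false

namespace Pool.Agent.Y859.SF

open Finset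

/-- `m! b! y! y'!` is a square, `y' ≤ y ≤ b < m` -/
def Rep (m b y y' : ℕ) : Prop :=
  y' ≤ y ∧ y ≤ b ∧ b < m ∧ IsSquare (m.factorial * b.factorial * y.factorial * y'.factorial)

/-- product of the integers of `(A, B]` -/
def blk (A B : ℕ) : ℕ := ∏ j ∈ Ioc A B, j

/-- at most `ε N` integers of `(N, 2N]` have the property `S` -/
def Few (S : ℕ → Prop) (ε : ℝ) (N : ℕ) : Prop :=
  ∃ B : Finset ℕ, (B.card : ℝ) ≤ ε * N ∧ ∀ m, N < m → m ≤ 2 * N → S m → m ∈ B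

/-- density zero, dyadic form -/
def Null (S : ℕ → Prop) : Prop := ∀ ε : ℝ, 0 < ε → ∃ N₀ : ℕ, ∀ N : ℕ, N₀ ≤ N → Few S ε N

/-! ### known facts (proved on main in other libraries) -/

/-- both blocks are short (Pool.Agent.Helper601.partA) -/
def S_PA : Prop := ∃ m₀ : ℕ, ∀ m : ℕ, m₀ ≤ m → ∀ b y y' : ℕ, Rep m b y y' →
  ((m - b : ℕ) : ℝ) < (m : ℝ) ^ (51 / 100 : ℝ) ∧ ((y - y' : ℕ) : ℝ) < (m : ℝ) ^ (51 / 100 : ℝ)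

/-- the prime number theorem (Pool.Agent.Helper601.PNT) -/
def S_PNT : Prop :=
  Filter.Tendsto (fun x : ℝ => Chebyshev.theta x / x) Filter.atTop (nhds 1)

/-- Mertens -/
def S_MER : Prop := ∃ C : ℝ, 0 < C ∧ ∀ z : ℕ, 1 ≤ z →
  |∑ p ∈ (Icc 1 z).filter Nat.Prime, Real.log p / p - Real.log z| ≤ C

/-- the large sieve (Pool.Agent.Helper112.additive_large_sieve) -/
def S_LS : Prop := ∀ (N F : ℕ) (α : ℕ → ℂ),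
  ∑ f ∈ Icc 1 F, ∑ a ∈ (range f).filter (fun a => a.Coprime f),
    ‖∑ n ∈ Icc 1 N, α n * Complex.exp (2 * Real.pi * ((n * a / f : ℝ) : ℂ) * Complex.I)‖ ^ 2
    ≤ 6 * (N + (F : ℝ) ^ 2) * ∑ n ∈ Icc 1 N, ‖α n‖ ^ 2

/-! ### products of consecutive integers have many primes of odd exponent -/

/-- the conclusion: `≥ c s / log s` primes with odd exponent in the product of `(A, A + s]` -/
def Many (c : ℝ) (A s : ℕ) : Prop :=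
  ∃ P : Finset ℕ, (∀ p ∈ P, p.Prime ∧ Odd ((blk A (A + s)).factorization p)) ∧
    c * s / Real.log s ≤ (P.card : ℝ)

/-- the number of `j` in `(A, A + s]` such that the exponent of `p` in `j` is odd -/
def oddp (A s p : ℕ) : ℕ := ((Ioc A (A + s)).filter (fun j => Odd (j.factorization p))).card

def S_ES1U : Prop := ∃ s₀ : ℕ, ∀ A s : ℕ, s₀ ≤ s →
  ∑ p ∈ (Icc 1 s).filter Nat.Prime, (oddp A s p : ℝ) * Real.log p ≤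
    Real.log (s.factorial) + 21 / 100 * s

def S_ES1L : Prop := ∀ T : Finset ℕ, (∀ a ∈ T, 1 ≤ a ∧ ¬ 4 ∣ a) →
  Real.log (T.card.factorial) + 28 / 100 * T.card - 10 - 2 * Real.log (T.card + 1) ≤
    ∑ a ∈ T, Real.log a

def S_ES1 : Prop := ∃ c : ℝ, 0 < c ∧ ∃ s₀ : ℕ, ∀ A s : ℕ, s₀ ≤ s → s ^ 2 ≤ 4 * A → Many c A s

def S_ES2 : Prop := ∃ c : ℝ, 0 < c ∧ ∃ s₀ : ℕ, ∀ A s : ℕ, s₀ ≤ s → 8 * s ≤ A → 4 * A ≤ s ^ 2 →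
  Many c A s

def S_ES3 : Prop := ∃ c : ℝ, 0 < c ∧ ∃ s₀ : ℕ, ∀ A s : ℕ, s₀ ≤ s → A ≤ 8 * s → Many c A s

def S_ES : Prop := ∃ c : ℝ, 0 < c ∧ ∃ s₀ : ℕ, ∀ A s : ℕ, s₀ ≤ s → Many c A s

/-- `s` is not much larger than `t` -/
def S_S2 : Prop := ∃ m₀ : ℕ, ∀ m : ℕ, m₀ ≤ m → ∀ b y y' : ℕ, Rep m b y y' →
  ((y - y' : ℕ) : ℝ) ≤ ((m - b : ℕ) : ℝ) * Real.log m ^ 3

/-- for almost all `m`: bounded `t` implies small `s` -/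
def S_S4 : Prop := ∀ h : ℕ, Null (fun m => ∃ b y y' : ℕ, Rep m b y y' ∧ m - b < h ∧
  Real.log m < ((y - y' : ℕ) : ℝ) ^ 4)

/-! ### large prime factors in short intervals -/

/-- the number of the multiples `6 k + e` of `q` with `M < k ≤ M + J` -/
def cnt (e J q M : ℕ) : ℕ := ((Ioc M (M + J)).filter (fun k => q ∣ 6 * k + e)).card

/-- the primes `5 ≤ q ≤ Q` -/
def PQ (Q : ℕ) : Finset ℕ := (Icc 5 Q).filter Nat.Prime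

def S_VAR : Prop := ∃ C : ℝ, 0 < C ∧ ∀ e N J Q : ℕ, 1 ≤ J → 2 ≤ Q →
  ∑ M ∈ range N, (∑ q ∈ PQ Q, Real.log q * ((cnt e J q M : ℝ) - J / q)) ^ 2 ≤
    C * (N + (Q : ℝ) ^ 2) * J * Real.log Q ^ 2

/-- the logarithmic size of the prime factors `≤ z` in the window -/
noncomputable def sml (e J M : ℕ) (z : ℝ) : ℝ := ∑ q ∈ PQ ⌊z⌋₊, Real.log q * (cnt e J q M : ℝ)

def S_SMA : Prop := ∀ ε τ : ℝ, 0 < ε → 0 < τ → ∃ κ : ℝ, 0 < κ ∧ κ ≤ 1 / 100 ∧ ∀ J₁ : ℕ,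
  ∃ J : ℕ, J₁ ≤ J ∧ ∃ N₀ : ℕ, ∀ N : ℕ, N₀ ≤ N → ∀ e : ℕ, e ≤ 5 →
    ∃ B : Finset ℕ, (B.card : ℝ) ≤ ε * N ∧ ∀ M : ℕ, M < N → M ∉ B →
      sml e J M ((N : ℝ) ^ (1 / 2 + κ)) ≤ (1 / 2 + τ) * J * Real.log N

def S_SMB : Prop := ∀ θ κ ε τ : ℝ, 0 < κ → κ < θ → θ < 1 → 0 < ε → 0 < τ →
  ∃ N₀ : ℕ, ∀ N : ℕ, N₀ ≤ N → ∀ J : ℕ, (N : ℝ) ^ θ / 20 ≤ J → (J : ℝ) ≤ (N : ℝ) ^ θ →
    ∀ e : ℕ, e ≤ 5 → ∃ B : Finset ℕ, (B.card : ℝ) ≤ ε * N ∧ ∀ M : ℕ, M < N → M ∉ B →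
      sml e J M ((N : ℝ) ^ ((1 + θ) / 2 - κ)) ≤ ((1 + θ) / 2 + τ) * J * Real.log N

/-- the repeated prime factors in the window -/
noncomputable def rpt (e J M : ℕ) : ℝ := ∑ k ∈ Ioc M (M + J), ∑ q ∈ (6 * k + e).primeFactors,
  (((6 * k + e).factorization q : ℝ) - 1) * Real.log q

def S_PP : Prop := ∀ ε τ : ℝ, 0 < ε → 0 < τ → ∃ N₀ : ℕ, ∀ N : ℕ, N₀ ≤ N → ∀ J : ℕ, 1 ≤ J →
  J ≤ N → ∀ e : ℕ, 1 ≤ e → e ≤ 5 → ∃ B : Finset ℕ, (B.card : ℝ) ≤ ε * N ∧ ∀ M : ℕ, M < N →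
    M ∉ B → rpt e J M ≤ τ * J * Real.log N

open scoped Classical in
/-- the `k` of the window such that `6 k + e` has a prime factor `> z` -/
noncomputable def big (e J M : ℕ) (z : ℝ) : Finset ℕ :=
  (Ioc M (M + J)).filter (fun k => ∃ q : ℕ, q.Prime ∧ z < q ∧ q ∣ 6 * k + e)

def S_BIG : Prop := ∀ τ : ℝ, 0 < τ → ∃ N₀ : ℕ, ∀ N : ℕ, N₀ ≤ N → ∀ e J M : ℕ,
  e = 1 ∨ e = 5 → 1 ≤ J → (N : ℝ) / 20 ≤ M → M + J ≤ N → ∀ z β : ℝ, 0 ≤ β → β ≤ 1 → 0 < z →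
    13 * (N : ℝ) < z ^ 2 → sml e J M z ≤ β * J * Real.log N → rpt e J M ≤ τ * J * Real.log N →
      (1 - β - 3 * τ) * J ≤ ((big e J M z).card : ℝ)

/-! ### fractions -/

def S_FRA : Prop := ∀ (G : Finset ℕ) (φ : ℕ → ℚ) (A H K : ℕ) (Δ : ℝ), 0 ≤ Δ →
  (∀ g ∈ G, A < g ∧ g ≤ A + H ∧ 0 < φ g ∧ φ g < 1 ∧ (φ g).den ∣ g ∧ (φ g).den ≤ K) →
  (∀ g ∈ G, ∀ g' ∈ G, |((φ g : ℚ) : ℝ) - ((φ g' : ℚ) : ℝ)| ≤ Δ) →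
  ∃ v₀ : ℕ, 2 ≤ v₀ ∧
    ((G.filter (fun g => ¬ v₀ ∣ g)).card : ℝ) ≤ ((K : ℝ) ^ 2 * Δ + 1) * (H * Real.sqrt Δ + 1) ∧
    ((K : ℝ) ^ 2 * Δ < 1 → ∀ g ∈ G, v₀ ∣ g)

def S_REPF : Prop := ∀ (m b y y' : ℕ) (z : ℝ), Rep m b y y' → 0 < z → (m : ℝ) < z ^ 2 →
  ((m - b : ℕ) : ℝ) ≤ z → ((y - y' : ℕ) : ℝ) ≤ z → ∀ g P : ℕ, b < g → g ≤ m → P.Prime →
    z < P → P ∣ g → ∃ φ : ℚ, 0 < φ ∧ φ < 1 ∧ φ.den ∣ g ∧ (φ.den : ℝ) * z ≤ m ∧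
      (y' : ℚ) < φ * g ∧ φ * g ≤ y

/-- elements of the window with large prime factors: almost all of them are divisible by one
`v₀ ≥ 2`, so they are few -/
def S_WIN : Prop := ∀ (m b y y' J M : ℕ) (z Δ : ℝ), Rep m b y y' → 0 < z → (m : ℝ) < z ^ 2 →
  ((m - b : ℕ) : ℝ) ≤ z → ((y - y' : ℕ) : ℝ) ≤ z → b ≤ 6 * M → 6 * M + 6 * J + 6 ≤ m →
  Δ = (((m - b : ℕ) : ℝ) + ((y - y' : ℕ) : ℝ)) / m →
  ((big 1 J M z).card : ℝ) + ((big 5 J M z).card : ℝ) ≤ 2 * ((J : ℝ) / 5 + 1) +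
      (((m : ℝ) / z) ^ 2 * Δ + 1) * ((6 * (J : ℝ) + 6) * Real.sqrt Δ + 1) ∧
    (((m : ℝ) / z) ^ 2 * Δ < 1 →
      ((big 1 J M z).card : ℝ) + ((big 5 J M z).card : ℝ) ≤ 2 * ((J : ℝ) / 5 + 1))

/-- small scale -/
def S_3A : Prop := ∀ ε : ℝ, 0 < ε → ∃ κ : ℝ, 0 < κ ∧ κ ≤ 1 / 100 ∧ ∃ h : ℕ, ∃ N₀ : ℕ,
  ∀ N : ℕ, N₀ ≤ N → Few (fun m => ∃ b y y' : ℕ, Rep m b y y' ∧ h ≤ m - b ∧
    ((m - b : ℕ) : ℝ) ≤ (N : ℝ) ^ κ) ε N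

/-- the other scales -/
def S_3B : Prop := ∀ κ θ ε : ℝ, 0 < κ → κ ≤ 1 / 100 → κ / 2 ≤ θ → θ ≤ 511 / 1000 → 0 < ε →
  ∃ N₀ : ℕ, ∀ N : ℕ, N₀ ≤ N → Few (fun m => ∃ b y y' : ℕ, Rep m b y y' ∧
    (N : ℝ) ^ θ ≤ ((m - b : ℕ) : ℝ) ∧ ((m - b : ℕ) : ℝ) ≤ (N : ℝ) ^ (θ + κ / 20)) ε N

/-- `t` is bounded for almost all `m` -/
def S_3 : Prop := ∀ ε : ℝ, 0 < ε → ∃ h : ℕ, ∃ N₀ : ℕ, ∀ N : ℕ, N₀ ≤ N →
  Few (fun m => ∃ b y y' : ℕ, Rep m b y y' ∧ h ≤ m - b) ε N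

/-! ### bounded `t` -/

def S_TYPZ : Prop := ∀ (ε : ℝ) (h : ℕ), 0 < ε → ∃ Z N₀ : ℕ, ∀ N : ℕ, N₀ ≤ N →
  Few (fun m => ∃ i z : ℕ, i < h ∧ Z < z ∧ z ^ 2 ∣ m - i) ε N

def S_SQP : Prop := ∀ A s f β : ℕ, 1 ≤ s → Squarefree f → blk A (A + s) = f * β ^ 2 →
  ∃ x : ℕ → ℕ, (∀ j ∈ Ioc A (A + s), 1 ≤ x j ∧ x j ^ 2 ∣ j) ∧
    β ≤ (∏ j ∈ Ioc A (A + s), x j) * s ^ (s ^ 2)

/-- the square part of the product `(b, m]` is at most `A₀` -/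
def Sqb (A₀ b m : ℕ) : Prop := ∃ f α : ℕ, Squarefree f ∧ blk b m = f * α ^ 2 ∧ α ≤ A₀

def S_5A : Prop := ∀ h A₀ : ℕ, ∃ N₀ : ℕ, ∀ N m b y y' : ℕ, N₀ ≤ N → N < m → m ≤ 2 * N →
  Rep m b y y' → m - b < h → y - y' < m - b → ¬ Sqb A₀ b m

def S_5B : Prop := ∀ (h A₀ : ℕ) (ε : ℝ), 0 < ε → ∃ N₀ : ℕ, ∀ N : ℕ, N₀ ≤ N →
  Few (fun m => ∃ b y y' : ℕ, Rep m b y y' ∧ m - b < h ∧ m - b < y - y' ∧
    ((y - y' : ℕ) : ℝ) ^ 4 ≤ Real.log m ∧ Sqb A₀ b m) ε N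

def S_PELL : Prop := ∀ (k α β : ℕ) (ε : ℝ), 2 ≤ k → 1 ≤ β → β < α → 0 < ε → ∃ N₀ : ℕ,
  ∀ N : ℕ, N₀ ≤ N → Few (fun m => ∃ y : ℕ, k ≤ y ∧ y < m ∧
    α ^ 2 * y.descFactorial k = β ^ 2 * m.descFactorial k) ε N

def S_5C : Prop := ∀ (h A₀ : ℕ) (ε : ℝ), 0 < ε → ∃ N₀ : ℕ, ∀ N : ℕ, N₀ ≤ N →
  Few (fun m => ∃ b y y' : ℕ, Rep m b y y' ∧ m - b < h ∧ m - b = y - y' ∧ 2 ≤ m - b ∧
    Sqb A₀ b m) ε N

/-- bounded `t`, small `s`: only the trivial representations remain -/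
def S_5 : Prop := ∀ h : ℕ, Null (fun m => ∃ b y y' : ℕ, Rep m b y y' ∧ m - b < h ∧
  ((y - y' : ℕ) : ℝ) ^ 4 ≤ Real.log m ∧ ¬ (m - b = 1 ∧ y - y' = 1))

/-- **classification**: for almost all `m` all representations are trivial -/
def S_CLS : Prop := Null (fun m => ∃ b y y' : ℕ, Rep m b y y' ∧ ¬ (m - b = 1 ∧ y - y' = 1))

/-! ### the end -/

/-- `m` lies in `F_k` -/
def InF (k m : ℕ) : Prop :=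
  ∃ s : Finset ℕ, 1 ≤ s.card ∧ s.card ≤ k ∧ m ∈ s ∧ (∀ a ∈ s, 1 ≤ a ∧ a ≤ m) ∧
    IsSquare (∏ a ∈ s, a.factorial)

/-- from representations to the block form -/
def S_F4 : Prop := ∀ m : ℕ, 2 ≤ m → InF 4 m → ∃ b y y' : ℕ, Rep m b y y'

def S_F3 : Prop := ∀ m : ℕ, 2 ≤ m → InF 3 m → ∃ b y : ℕ, Rep m b y 0

/-- the integers which are not squarefree lie in `F_4` -/
def S_NSF : Prop := ∀ m : ℕ, 1 ≤ m → ¬ Squarefree m → InF 4 m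

open scoped Classical in
def S_SQF : Prop := Filter.Tendsto
  (fun n : ℕ => (((Icc 1 n).filter (fun m => Squarefree m)).card : ℝ) / n) Filter.atTop
  (nhds (6 / Real.pi ^ 2))

open scoped Classical in
/-- a null set has natural density zero -/
def S_DENS : Prop := ∀ S : ℕ → Prop, Null S → Filter.Tendsto
  (fun n : ℕ => (((Icc 1 n).filter S).card : ℝ) / n) Filter.atTop (nhds 0)

end Pool.Agent.Y859.SF
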